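import Pool.Agent.V1138.AT.Moeb
import Pool.Agent.V1138.FP.Phi

/-!
# MP_e9abfe_ag: Dynamical Mordell-Lang for the map `(x² + y, y² + z, z² + x)` and the points of curves
through five étale preperiodic points, with parameters in the orbits of the roots of unity under the
modular group

Let `Φ (x, y, z) = (x² + y, y² + z, z² + x)` (`phi`).

**Étale preperiodic points.** A point `P` of `ℂ^3` is called étale preperiodic if it is preperiodic for
`Φ` and the determinant `8 x y z + 1` of the derivative of `Φ` does not vanish at the points of its cycle
(`EtalePreperiodicPoint`). Examples are the origin (theorem `Pool.Agent.V1138.FP.etale_zero`) and all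
points which are mapped to it by an iterate of `Φ`; there are infinitely many of them.

**Curves of points.** Let `x (t) = (x_0 (t), x_1 (t), x_2 (t))` be a polynomial curve in `ℂ^3`, `x_i`
arbitrary polynomials with complex coefficients (`point x t`).

**Parameters.** The parameters are the numbers `t = (a + b ζ) / (c + d ζ)` with integers `a, b, c, d`,
`a d - b c ≠ 0`, and roots of unity `ζ` of any order, such that every prime number `p > R` which divides
the determinant `a d - b c` divides exactly one of the columns `(a, c)` and `(b, d)`
(`IsMoebiusValue R`); `R` is any given number. They contain the orbits of all roots of unity under the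
modular group, `t = g (ζ)` with `g ∈ PSL_2 (ℤ)` or `g ∈ PGL_2 (ℤ[1/R])` (the condition on the prime
numbers is empty), more generally the numbers `t = g (q ζ)` with such `g` and any rational number
`q ≠ 0`, and the numbers `t = a + b ζ` with `a` rational and `b ≠ 0` an integer (theorem
`Pool.Agent.V1138.AT.moeb_of_tr`), in particular all rational numbers. Neither the degree nor the
height of `t` is bounded, and `t` does not belong to a fixed finitely generated field.

**Theorem.** Let `α_1, …, α_5` be five different rational numbers such that `x (α_1), …, x (α_5)` are
étale preperiodic points. (For any five étale preperiodic points and any `α_l` there are such curves, by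
interpolation.) Then for all but finitely many of these parameters `t` the orbit of `x (t)` satisfies
the Dynamical Mordell-Lang conjecture.

The conclusion (`MordellLangAt`) is the assertion of Q1 for the point `x (t)` and all subvarieties `V`: for
every set `S` of polynomials in three variables the set of the `n` such that all members of `S` vanish
at `Φ^n (x (t))` is a finite union of arithmetic progressions. The starting file `RealPoints`
proves this for points with coordinates in a field with a real embedding; the fields generated
by the parameters `t` here, for example cyclotomic fields, have in general no real embedding, and the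
coefficients of the curve are arbitrary complex numbers.

The proof: if `t` is `p`-adically near to `α` for an embedding of `ℂ` into the algebraic closure of
`ℚ_p`, for which all data have good reduction, then the orbit of `x (t)` has the reduction of the
orbit of `x (α)`, so `Φ` is étale at `p` along the orbit, and `p`-adic interpolation applies (starting file
`MP_b15c9e_ag.CurvesThroughPreperiodicPoints`).

**The arithmetic** (`Pool.Agent.V1138.AT`). Let `ζ` be of order `n`, `α = u / v` one of the `α_l`, and
`U = u c - v a`, `V = v b - u d`. A prime factor `p > R` of the resultant of `U - V X` and the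
cyclotomic polynomial `Φ_n` divides the (homogenized) value at `α` of the minimal polynomial of `t`, since
`a + b X` and `c + d X` have no common zero `≠ 0` modulo `p`. If `n ≥ N (D)` and `U, V ≠ 0`, `|U| ≠ |V|`
then this resultant has a prime factor larger than `D` (theorem `AT.big`): up to the factor
`gcd (U, V) ^ φ (n)` it is at least `3 ^ ((φ (n) - 1) / 2)` by the inequality between the arithmetic and
the geometric mean, and its part at the primes `p ≤ D` divides `D!`, since it is not divisible by `p²`
for `n > D²`. The bound `N (D)` does not depend on `a, b, c, d`. The four exceptional cases, `α` the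
image of `0`, `∞`, `1` or `-1` under the transformation, are the reason for four additional
members. For the finitely many `n < N (D)`, if the values at three different `α` have no prime factor
larger than `D` then the numbers `(α - t) / (α' - t)` are `S`-units, and there are only finitely many
such `t` by the unit equation.
-/

set_option autoImplicit false

namespace Pool.Agent.Results.MP_e9abfe_ag.MoebiusOrbits

open Polynomial
open Pool.Agent.V1138.FP (phi MordellLangAt EtalePreperiodicPoint point)

/-- `t = (a + b ζ) / (c + d ζ)` with integers `a, b, c, d`, `a d - b c ≠ 0`, and a root of unity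
`ζ`, such that every prime number `p > R` which divides `a d - b c` divides exactly one of the
columns `(a, c)` and `(b, d)`. -/
def IsMoebiusValue (R : ℕ) (t : ℂ) : Prop :=
  ∃ (a b c d : ℤ) (ζ : ℂ), a * d - b * c ≠ 0 ∧ (∃ n : ℕ, 0 < n ∧ ζ ^ n = 1) ∧
    (c : ℂ) + d * ζ ≠ 0 ∧ t = (a + b * ζ) / (c + d * ζ) ∧
    ∀ p : ℕ, p.Prime → R < p → (p : ℤ) ∣ a * d - b * c →
      ((p : ℤ) ∣ a ∧ (p : ℤ) ∣ c ∧ ¬ ((p : ℤ) ∣ b ∧ (p : ℤ) ∣ d)) ∨
      ((p : ℤ) ∣ b ∧ (p : ℤ) ∣ d ∧ ¬ ((p : ℤ) ∣ a ∧ (p : ℤ) ∣ c))

/-- Dynamical Mordell-Lang for all but finitely many points with parameters `(a + b ζ) / (c + d ζ)` of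
curves through five étale preperiodic points. -/
theorem result (x : Fin 3 → ℂ[X]) (R : ℕ) (α : Fin 5 → ℚ) (hα : Function.Injective α)
    (hx : ∀ l, EtalePreperiodicPoint (point x (α l))) :
    {t : ℂ | IsMoebiusValue R t ∧ ¬ MordellLangAt (point x t)}.Finite :=
  Pool.Agent.V1138.FP.phi_family {t | IsMoebiusValue R t} α
    (fun D => Pool.Agent.V1138.AT.finite_badM R D (M := 5) (L := 1) le_rfl α hα) x hx

end Pool.Agent.Results.MP_e9abfe_ag.MoebiusOrbits
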