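import Pool.Agent.V1138.KR.Real
import Pool.Agent.V1138.FP.Phi

/-!
# MP_e9abfe_ag: Dynamical Mordell-Lang for the map `(x² + y, y² + z, z² + x)` and the points of curves
through an étale preperiodic point, with values of a rational function at radicals as parameters

Let `Φ (x, y, z) = (x² + y, y² + z, z² + x)` (`phi`).

**Étale preperiodic points.** A point `P` of `ℂ^3` is called étale preperiodic if it is preperiodic for
`Φ` and the determinant `8 x y z + 1` of the derivative of `Φ` does not vanish at the points of its cycle
(`EtalePreperiodicPoint`). Examples are the origin (theorem `Pool.Agent.V1138.FP.etale_zero`) and all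
points which are mapped to it by an iterate of `Φ`; there are infinitely many of them.

**Curves of points.** Let `x (t) = (x_0 (t), x_1 (t), x_2 (t))` be a polynomial curve in `ℂ^3`, `x_i`
arbitrary polynomials with complex coefficients (`point x t`).

**Parameters.** Let `Γ₀` be a finitely generated subgroup of `ℚ^×`. We call `ξ` a pure radical over
`Γ₀` if `ξ ^ N = γ` for some `N > 0` and some rational number `γ` which has a power in `Γ₀`, and `ξ`
has degree `N` over `ℚ` (`IsPureRadical`). For example all real numbers with a power in `Γ₀`, and
their conjugates, are pure radicals (theorem `Pool.Agent.V1138.KR.pure_of_real`). Let `f = P / Q` be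
a rational function, where `P` and `Q` are coprime polynomials with integral coefficients. The
parameters are the values `t = f (ξ)` of `f` at the pure radicals `ξ` over `Γ₀` (`IsRadicalValue`),
for example the numbers `2^(1/N) + 2^(-1/N)`, or `1 + 6^(k/N)`. These parameters are algebraic
numbers of unbounded degree and unbounded height. A rational number `α` is called independent if
`f (x) = α` for at least one `x ≠ 0` with no power in `Γ₀` (for `f = X`: no power of `α ≠ 0` is in
`Γ₀`).

**Theorem.** Let `α` be an independent rational number such that `x (α)` is an étale preperiodic point.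
Then for all but finitely many parameters `t = f (ξ)` the orbit of `x (t)` satisfies the Dynamical
Mordell-Lang conjecture.

The conclusion (`MordellLangAt`) is the assertion of Q1 for the point `x (t)` and all subvarieties `V`: for
every set `S` of polynomials in three variables the set of the `n` such that all members of `S` vanish
at `Φ^n (x (t))` is a finite union of arithmetic progressions. The starting file `RealPoints`
proves this for points with coordinates in a field with a real embedding; the fields of the
radicals of even degree of negative numbers have no real embedding, and the coefficients of the curve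
are arbitrary complex numbers.

The proof: if `t` is `p`-adically near to `α` for an embedding of `ℂ` into the algebraic closure of
`ℚ_p`, for which all data have good reduction, then the orbit of `x (t)` has the reduction of the
orbit of `x (α)`, so `Φ` is étale at `p` along the orbit, and `p`-adic interpolation applies (starting file
`MP_b15c9e_ag.CurvesThroughPreperiodicPoints`).

**The arithmetic** (`Pool.Agent.V1138.KR`). If `α = u / v` is independent then for all but finitely
many parameters `t = f (ξ)` the (homogenized) value at `α` of the minimal polynomial of `t` has a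
prime factor larger than a given number `D`. Otherwise the resultant of `u Q - v P` and the minimal
polynomial of `ξ`, `ξ ^ N = γ`, has only small prime factors, hence `β ^ N - γ` is an `S`-unit for
every zero `β` of `u Q - v P`, with a fixed finite set `S`. By the unit equation `β ^ N / γ` is one of
finitely many numbers, and if no power of `β` is in `Γ₀` this number determines `N` and `γ`.
-/

set_option autoImplicit false

namespace Pool.Agent.Results.MP_e9abfe_ag.RadicalValues

open Polynomial
open Pool.Agent.V1138.FP (phi MordellLangAt EtalePreperiodicPoint point)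

/-- `ξ ^ N = γ` for some `N > 0` and `γ ∈ ℚ^×` with a power in `Γ₀`, and `ξ` has degree `N`. -/
def IsPureRadical (Γ₀ : Subgroup ℚˣ) (ξ : ℂ) : Prop :=
  ∃ N : ℕ, 0 < N ∧ ∃ γ : ℚˣ, (∃ m : ℕ, 0 < m ∧ γ ^ m ∈ Γ₀) ∧ ξ ^ N = ((γ : ℚ) : ℂ) ∧
    N ≤ (minpoly ℚ ξ).natDegree

/-- `t` is the value of `P / Q` at a pure radical over `Γ₀`. -/
def IsRadicalValue (Γ₀ : Subgroup ℚˣ) (P Q : Polynomial ℤ) (t : ℂ) : Prop :=
  ∃ ξ : ℂ, IsPureRadical Γ₀ ξ ∧ Polynomial.aeval ξ Q ≠ 0 ∧
    t = Polynomial.aeval ξ P / Polynomial.aeval ξ Q

/-- `P` and `Q` have no common factor over the rational numbers. -/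
def NoCommonFactor (P Q : Polynomial ℤ) : Prop :=
  IsCoprime (P.map (Int.castRingHom ℚ)) (Q.map (Int.castRingHom ℚ))

/-- `P / Q` takes the value `α` at a nonzero number which has no power in `Γ₀`. -/
def Independent (Γ₀ : Subgroup ℚˣ) (P Q : Polynomial ℤ) (α : ℚ) : Prop :=
  ∃ x : ℂ, x ≠ 0 ∧ Polynomial.aeval x P = (α : ℂ) * Polynomial.aeval x Q ∧
    ∀ m : ℕ, 0 < m → ∀ γ ∈ Γ₀, x ^ m ≠ ((γ : ℚ) : ℂ)

/-- Dynamical Mordell-Lang for all but finitely many points with parameters `P (ξ) / Q (ξ)` of curves
through an étale preperiodic point. -/
theorem result (x : Fin 3 → ℂ[X]) (Γ₀ : Subgroup ℚˣ) (hΓ₀ : Γ₀.FG) (P Q : ℤ[X])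
    (hPQ : NoCommonFactor P Q) (α : ℚ) (hα : Independent Γ₀ P Q α)
    (hx : EtalePreperiodicPoint (point x α)) :
    {t : ℂ | IsRadicalValue Γ₀ P Q t ∧ ¬ MordellLangAt (point x t)}.Finite :=
  Pool.Agent.V1138.FP.phi_family {t | IsRadicalValue Γ₀ P Q t} (fun _ : Fin 1 => α)
    (fun D => Pool.Agent.V1138.KR.finite_badK D (M := 1) (L := 1) le_rfl (fun _ => α) Γ₀ hΓ₀ P Q hPQ
      fun _ => hα) x fun _ => hx

end Pool.Agent.Results.MP_e9abfe_ag.RadicalValues
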